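import Pool.Agent.H48.PR.Sw
import Pool.Agent.H48.PR.Pt
import Pool.Agent.H71.VM.IntHV
import Pool.Agent.H71.VM.PRIntR
import Pool.Agent.H82.CM.RealG
import Pool.Agent.H82.BK.Loss

/-!
# The operator inequality at a touching point, soft potentials

`cut_PI`, `op_PI` of H48/PR/CutP (proof of helper48) for `0 ≤ γ + 2 s`.
-/

set_option autoImplicit false

open MeasureTheory Set Filter Topology Pool.Agent.H25.Kin Pool.Agent.H48.PL Pool.Agent.H48.PD
open Pool.Agent.H82.BK Pool.Agent.H82.CM Pool.Agent.H48.PR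
open scoped ENNReal

namespace Pool.Agent.H87.SV

variable {d : ℕ} {γ s C Ca cb : ℝ} {b : ℝ → ℝ}

/-- the double integral over `m` and the half sphere -/
private noncomputable def cutI (Ψ : Vec d → Vec d → ℝ≥0∞) : ℝ≥0∞ :=
  ∫⁻ m, ∫⁻ σ in {σ : Vec d | 0 < dot m σ}, Ψ m σ ∂(surf d)

private lemma cutI_meas {Ψ : Vec d → Vec d → ℝ≥0∞}
    (h : Measurable fun q : Vec d × Vec d => Ψ q.1 q.2) :
    Measurable fun m : Vec d => ∫⁻ σ in {σ : Vec d | 0 < dot m σ}, Ψ m σ ∂(surf d) := by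
  have hS : MeasurableSet {q : Vec d × Vec d | 0 < dot q.1 q.2} := by
    have h1 : Continuous fun q : Vec d × Vec d => dot q.1 q.2 := by unfold dot; fun_prop
    exact (isOpen_lt continuous_const h1).measurableSet
  have h2 : Measurable fun q : Vec d × Vec d =>
      ({q : Vec d × Vec d | 0 < dot q.1 q.2}.indicator (fun q => Ψ q.1 q.2)) q := h.indicator hS
  have h3 := h2.lintegral_prod_right' (ν := surf d)
  have e : (fun m : Vec d => ∫⁻ σ in {σ : Vec d | 0 < dot m σ}, Ψ m σ ∂(surf d)) =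
      fun m : Vec d => ∫⁻ σ, ({q : Vec d × Vec d | 0 < dot q.1 q.2}.indicator
        (fun q => Ψ q.1 q.2)) (m, σ) ∂(surf d) := by
    funext m
    rw [← lintegral_indicator (measurableSet_half m)]
    rfl
  rw [e]
  exact h3

private lemma cutI_meas' {Ψ : Vec d → Vec d → ℝ≥0∞}
    (h : Measurable fun q : Vec d × Vec d => Ψ q.1 q.2) (m : Vec d) :
    Measurable fun σ : Vec d => Ψ m σ :=
  Measurable.comp (g := fun q : Vec d × Vec d => Ψ q.1 q.2) h
    (measurable_const.prodMk measurable_id)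

private lemma cutI_add {Ψ₁ Ψ₂ : Vec d → Vec d → ℝ≥0∞}
    (h : Measurable fun q : Vec d × Vec d => Ψ₁ q.1 q.2) :
    cutI (fun m σ => Ψ₁ m σ + Ψ₂ m σ) = cutI Ψ₁ + cutI Ψ₂ := by
  unfold cutI
  rw [← lintegral_add_left (cutI_meas h)]
  refine lintegral_congr fun m => ?_
  exact lintegral_add_left (cutI_meas' h m) _

private lemma cutI_mono {Ψ₁ Ψ₂ : Vec d → Vec d → ℝ≥0∞}
    (h : ∀ m σ, nsq σ = 1 → 0 < dot m σ → Ψ₁ m σ ≤ Ψ₂ m σ) : cutI Ψ₁ ≤ cutI Ψ₂ := by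
  unfold cutI
  refine lintegral_mono fun m => ?_
  refine lintegral_mono_ae ?_
  filter_upwards [ae_restrict_of_ae surf_ae, ae_restrict_mem (measurableSet_half m)] with σ hσ hm
  exact h m σ hσ hm

private lemma cutI_congr {Ψ₁ Ψ₂ : Vec d → Vec d → ℝ≥0∞}
    (h : ∀ m σ, nsq σ = 1 → 0 < dot m σ → Ψ₁ m σ = Ψ₂ m σ) : cutI Ψ₁ = cutI Ψ₂ :=
  le_antisymm (cutI_mono fun m σ h1 h2 => (h m σ h1 h2).le)
    (cutI_mono fun m σ h1 h2 => (h m σ h1 h2).ge)

/-- nonnegative factors depending on `m` only come out -/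
private lemma cutI_pull {a : Vec d → ℝ} (ha : ∀ m, 0 ≤ a m) (B : Vec d → Vec d → ℝ) :
    cutI (fun m σ => ENNReal.ofReal (a m * B m σ)) =
      ∫⁻ m, ENNReal.ofReal (a m) *
        ∫⁻ σ in {σ : Vec d | 0 < dot m σ}, ENNReal.ofReal (B m σ) ∂(surf d) := by
  unfold cutI
  refine lintegral_congr fun m => ?_
  rw [← lintegral_const_mul' _ _ ENNReal.ofReal_ne_top]
  refine lintegral_congr fun σ => ?_
  exact ENNReal.ofReal_mul (ha m)

private lemma cutI_const {c : ℝ≥0∞} (hc : c ≠ ⊤) (Ψ : Vec d → Vec d → ℝ≥0∞) :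
    cutI (fun m σ => c * Ψ m σ) = c * cutI Ψ := by
  unfold cutI
  rw [← lintegral_const_mul' _ _ hc]
  refine lintegral_congr fun m => ?_
  rw [← lintegral_const_mul' _ _ hc]

private lemma cutKn_nonneg {γ : ℝ} {b : ℝ → ℝ} {C β ε : ℝ} (hC : AngBound b C β) (hε : 0 < ε)
    {m σ : Vec d} (hσ : nsq σ = 1) (hm : 0 < dot m σ) : 0 ≤ Kn d γ (bt b ε) (co m σ) := by
  have h1 := co_pos hm
  have h2 := co_le_one (m := m) hσ
  unfold Kn
  refine mul_nonneg (mul_nonneg (by positivity) (Real.rpow_nonneg h1.le _)) (bt_nonneg hC hε ?_ ?_)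
  · nlinarith
  · nlinarith

private lemma cut_mK (γ : ℝ) {b : ℝ → ℝ} (hb : Measurable b) (ε : ℝ) :
    Measurable fun q : Vec d × Vec d => Kn d γ (bt b ε) (co q.1 q.2) := by
  have h1 := measurable_co (d := d)
  unfold Kn
  exact ((h1.pow_const _).const_mul _).mul
    ((measurable_bt hb ε).comp (((h1.pow_const 2).const_mul 2).sub_const 1))

private lemma cut_mL (γ : ℝ) : Measurable fun q : Vec d × Vec d => len q.1 ^ γ :=
  (continuous_len.measurable.comp measurable_fst).pow_const γ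

private lemma cut_mz (v : Vec d) : Measurable fun q : Vec d × Vec d => v - q.1 :=
  measurable_const.sub measurable_fst

private lemma cut_mh (v : Vec d) : Measurable fun q : Vec d × Vec d => v + hh q.2 q.1 :=
  measurable_const.add measurable_hh

private lemma cut_mA (γ : ℝ) {b : ℝ → ℝ} (hb : Measurable b) (ε : ℝ) {g : Vec d → ℝ}
    (hg : Measurable g) (v : Vec d) : Measurable fun q : Vec d × Vec d =>
      ENNReal.ofReal (len q.1 ^ γ * g (v - q.1) *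
        (Kn d γ (bt b ε) (co q.1 q.2) * g (v + hh q.2 q.1))) :=
  (((cut_mL γ).mul (hg.comp (cut_mz v))).mul
    ((cut_mK γ hb ε).mul (hg.comp (cut_mh v)))).ennreal_ofReal

private lemma cut_mB (γ : ℝ) {b : ℝ → ℝ} (hb : Measurable b) (ε : ℝ) {g : Vec d → ℝ}
    (hg : Measurable g) (v : Vec d) (c : ℝ) : Measurable fun q : Vec d × Vec d =>
      ENNReal.ofReal (len q.1 ^ γ * g (v - q.1) * c *
        (Kn d γ (bt b ε) (co q.1 q.2) * co q.1 q.2 ^ ((d : ℝ) + γ))) :=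
  ((((cut_mL γ).mul (hg.comp (cut_mz v))).mul_const c).mul
    ((cut_mK γ hb ε).mul (measurable_co.pow_const _))).ennreal_ofReal

/-- the loss type terms -/
private lemma cut_loss (hd : 2 ≤ d) (γ : ℝ) {b : ℝ → ℝ} (hb : Measurable b) (ε : ℝ)
    {a : Vec d → ℝ} (ha : ∀ m, 0 ≤ a m) {c : ℝ} (hc : 0 ≤ c) :
    cutI (fun m σ => ENNReal.ofReal (a m * c *
        (Kn d γ (bt b ε) (co m σ) * co m σ ^ ((d : ℝ) + γ)))) =
      ∫⁻ m, ENNReal.ofReal (a m) * (ENNReal.ofReal c * BB b ε (dir m)) := by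
  rw [cutI_pull (a := fun m => a m * c) (fun m => mul_nonneg (ha m) hc)]
  refine lintegral_congr_ae ?_
  filter_upwards [ae_ne (by omega : 1 ≤ d) (0 : Vec d)] with m hm
  rw [BB_eq hd γ hb ε hm.symm, ENNReal.ofReal_mul (ha m), mul_assoc]

/-- the pointwise inequality in `ℝ≥0∞` -/
private lemma cut_pt {x1 x2 x3 r1 r2 r3 r4 r5 : ℝ} (h1 : 0 ≤ x1) (h2 : 0 ≤ x2) (h3 : 0 ≤ x3)
    (h : x1 + (x2 + x3) ≤ r1 + (r2 + (r3 + (r4 + r5)))) :
    ENNReal.ofReal x1 + (ENNReal.ofReal x2 + ENNReal.ofReal x3) ≤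
      ENNReal.ofReal r1 + (ENNReal.ofReal r2 + (ENNReal.ofReal r3 +
        (ENNReal.ofReal r4 + ENNReal.ofReal r5))) := by
  rw [← ENNReal.ofReal_add h2 h3, ← ENNReal.ofReal_add h1 (by positivity)]
  refine (ENNReal.ofReal_le_ofReal h).trans ?_
  refine ENNReal.ofReal_add_le.trans (add_le_add_right ?_ _)
  refine ENNReal.ofReal_add_le.trans (add_le_add_right ?_ _)
  refine ENNReal.ofReal_add_le.trans (add_le_add_right ?_ _)
  exact ENNReal.ofReal_add_le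

theorem cut_PI (HL : HypL d γ s b C Ca cb) (h0 : 0 ≤ γ + 2 * s) (hs : 2 * s < 1) {α : ℝ} (h1 : 2 * s < α)
    (h2 : α ≤ 1) {p : ℕ} (hp : d + 10 ≤ p) (Cl : ℕ → ℝ) (R₁ : ℝ) {m₁ : ℝ} (hm : 0 < m₁) :
    ∃ ε₁ > 0, ∃ K : ℝ, 0 ≤ K ∧ ∀ (Γ Λ : ℝ) (F G : Vec d → ℝ) (v : Vec d), TP Cl p α Γ Λ F G v →
      m₁ ≤ ∫ z in {z : Vec d | nsq z ≤ R₁ ^ 2}, G z → ∫ z, |G z - F z| ≤ ε₁ →
      ∀ ε : ℝ, 0 < ε → ε ≤ 1 / 64 →
      boltzCut γ b ε G v - boltzCut γ b ε F v ≤ K * (1 + Γ) * (Λ * Wp p v) := by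
  classical
  obtain ⟨ε₁, hε₁, K₁, hK₁, hI⟩ := Pool.Agent.H71.VM.intH HL h0 hs hp Cl R₁ hm
  obtain ⟨K₂, hK₂, hR⟩ := Pool.Agent.H71.VM.intR HL.H h0 h1 h2 hp
  obtain ⟨K₃, hK₃, hP⟩ := pt_ineq (d := d) Cl p
  refine ⟨ε₁, hε₁, K₁ + K₂ * K₃, by positivity, fun Γ Λ F G v ht hmG hdF ε hε hε1 => ?_⟩
  have hd := HL.H.hd
  have hbm := HL.H.bm
  have hbd := HL.H.bd
  have F0 := ht.hF.nonneg
  have G0 := ht.hG.nonneg
  have mF : Measurable F := ht.hF.nice.cont.measurable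
  have mG : Measurable G := ht.hG.nice.cont.measurable
  have mW : Measurable (Wp p : Vec d → ℝ) := (Wp_cont p).measurable
  have W0 : ∀ u : Vec d, 0 ≤ Wp p u := fun u => (Wp_pos p u).le
  have Wv := Wp_pos p v
  have hΛ := ht.lam
  have hΓ := ht.gam
  have hE0 : 0 ≤ (d : ℝ) + γ := by
    have h3 : (2 : ℝ) ≤ d := by exact_mod_cast hd
    linarith
  have hl : ∀ m : Vec d, 0 ≤ len m ^ γ := fun m => Real.rpow_nonneg (len_nonneg m) γ
  have hmn : ∀ m, 0 ≤ min (F (v - m)) (G (v - m)) := fun m => le_min (F0 _) (G0 _)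
  have mmn : Measurable fun z : Vec d => min (F z) (G z) := mF.min mG
  set B : ℝ≥0∞ := ∫⁻ m, ENNReal.ofReal (len m ^ γ * min (F (v - m)) (G (v - m))) *
    (ENNReal.ofReal (Wp p v) * BB b ε (dir m)) with hB
  set XH : ℝ≥0∞ := ∫⁻ m, ENNReal.ofReal (len m ^ γ * min (F (v - m)) (G (v - m))) *
    GMg γ b ε (Wp p) univ v m with hXH
  set XE : ℝ≥0∞ := ∫⁻ m, ENNReal.ofReal (len m ^ γ * G (v - m)) *
    GEg γ b ε (Wp p) (RS v) v m with hXE
  set Y : ℝ≥0∞ := ∫⁻ m, ENNReal.ofReal (len m ^ γ * Wp p (v - m)) *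
      ∫⁻ σ in {σ : Vec d | 0 < dot m σ}, ENNReal.ofReal (Kn d γ (bt b ε) (co m σ) *
        (Wp (p + 2) v * (min 1 (len (hh σ m)) ^ α + (1 - co m σ ^ ((d : ℝ) + γ))))) ∂(surf d)
    with hY
  -- the integrated terms
  have t1 : cutI (fun m σ => ENNReal.ofReal (len m ^ γ * G (v - m) *
      (Kn d γ (bt b ε) (co m σ) * G (v + hh σ m)))) = Gn γ b ε G v := by
    rw [gain_eq hd γ hbm hbd hε mG G0 v]
    exact cutI_pull (a := fun m => len m ^ γ * G (v - m)) (fun m => mul_nonneg (hl m) (G0 _))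
      (fun m σ => Kn d γ (bt b ε) (co m σ) * G (v + hh σ m))
  have r1 : cutI (fun m σ => ENNReal.ofReal (len m ^ γ * F (v - m) *
      (Kn d γ (bt b ε) (co m σ) * F (v + hh σ m)))) = Gn γ b ε F v := by
    rw [gain_eq hd γ hbm hbd hε mF F0 v]
    exact cutI_pull (a := fun m => len m ^ γ * F (v - m)) (fun m => mul_nonneg (hl m) (F0 _))
      (fun m σ => Kn d γ (bt b ε) (co m σ) * F (v + hh σ m))
  have t2 : cutI (fun m σ => ENNReal.ofReal (len m ^ γ * F (v - m) * F v *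
      (Kn d γ (bt b ε) (co m σ) * co m σ ^ ((d : ℝ) + γ)))) = Ls γ b ε F v := by
    rw [loss_eq hd γ hbm hbd hε mF F0 v]
    exact cut_loss hd γ hbm ε (a := fun m => len m ^ γ * F (v - m))
      (fun m => mul_nonneg (hl m) (F0 _)) (F0 v)
  have r2 : cutI (fun m σ => ENNReal.ofReal (len m ^ γ * G (v - m) * G v *
      (Kn d γ (bt b ε) (co m σ) * co m σ ^ ((d : ℝ) + γ)))) = Ls γ b ε G v := by
    rw [loss_eq hd γ hbm hbd hε mG G0 v]
    exact cut_loss hd γ hbm ε (a := fun m => len m ^ γ * G (v - m))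
      (fun m => mul_nonneg (hl m) (G0 _)) (G0 v)
  have t3 : cutI (fun m σ => ENNReal.ofReal (len m ^ γ * min (F (v - m)) (G (v - m)) *
      (Λ * Wp p v) * (Kn d γ (bt b ε) (co m σ) * co m σ ^ ((d : ℝ) + γ)))) =
      ENNReal.ofReal Λ * B := by
    have h := cut_loss hd γ hbm ε (a := fun m => len m ^ γ * min (F (v - m)) (G (v - m)))
      (fun m => mul_nonneg (hl m) (hmn m)) (c := Λ * Wp p v) (by positivity)
    refine h.trans ?_
    rw [hB, ← lintegral_const_mul' _ _ ENNReal.ofReal_ne_top]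
    refine lintegral_congr fun m => ?_
    rw [ENNReal.ofReal_mul hΛ]
    ring
  have r3 : cutI (fun m σ => ENNReal.ofReal Λ * ENNReal.ofReal (len m ^ γ *
      min (F (v - m)) (G (v - m)) * (Kn d γ (bt b ε) (co m σ) * Wp p (v + hh σ m)))) =
      ENNReal.ofReal Λ * XH := by
    rw [cutI_const ENNReal.ofReal_ne_top, hXH]
    congr 1
    refine (cutI_pull (a := fun m => len m ^ γ * min (F (v - m)) (G (v - m)))
      (fun m => mul_nonneg (hl m) (hmn m))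
      (fun m σ => Kn d γ (bt b ε) (co m σ) * Wp p (v + hh σ m))).trans ?_
    refine lintegral_congr fun m => ?_
    congr 1
    unfold GMg
    refine lintegral_congr fun σ => ?_
    rw [if_pos (mem_univ _)]
  have r4 : cutI (fun m σ => ENNReal.ofReal Λ * (ENNReal.ofReal (len m ^ γ *
      Kn d γ (bt b ε) (co m σ)) * (if (v - m, v + hh σ m) ∈ RS v then 0 else
        ENNReal.ofReal (Wp p (v - m) * G (v + hh σ m))))) = ENNReal.ofReal Λ * XE := by
    rw [cutI_const ENNReal.ofReal_ne_top, hXE]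
    congr 1
    exact sw hd γ hbm hbd hε mW W0 mG G0 (measurableSet_RS v) v
  have r5 : cutI (fun m σ => ENNReal.ofReal (Λ * (K₃ * (1 + Γ))) * ENNReal.ofReal (len m ^ γ *
      Wp p (v - m) * (Kn d γ (bt b ε) (co m σ) * (Wp (p + 2) v *
        (min 1 (len (hh σ m)) ^ α + (1 - co m σ ^ ((d : ℝ) + γ))))))) =
      ENNReal.ofReal (Λ * (K₃ * (1 + Γ))) * Y := by
    rw [cutI_const ENNReal.ofReal_ne_top, hY]
    congr 1
    exact cutI_pull (a := fun m => len m ^ γ * Wp p (v - m))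
      (fun m => mul_nonneg (hl m) (W0 _)) (fun m σ => Kn d γ (bt b ε) (co m σ) *
        (Wp (p + 2) v * (min 1 (len (hh σ m)) ^ α + (1 - co m σ ^ ((d : ℝ) + γ)))))
  -- measurability
  have m3 : Measurable fun q : Vec d × Vec d => ENNReal.ofReal Λ * ENNReal.ofReal (len q.1 ^ γ *
      min (F (v - q.1)) (G (v - q.1)) *
        (Kn d γ (bt b ε) (co q.1 q.2) * Wp p (v + hh q.2 q.1))) :=
    ((((cut_mL γ).mul (mmn.comp (cut_mz v))).mul
      ((cut_mK γ hbm ε).mul (mW.comp (cut_mh v)))).ennreal_ofReal).const_mul _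
  have m4 : Measurable fun q : Vec d × Vec d => ENNReal.ofReal Λ * (ENNReal.ofReal (len q.1 ^ γ *
      Kn d γ (bt b ε) (co q.1 q.2)) * (if (v - q.1, v + hh q.2 q.1) ∈ RS v then 0 else
        ENNReal.ofReal (Wp p (v - q.1) * G (v + hh q.2 q.1)))) := by
    refine Measurable.const_mul ?_ _
    refine Measurable.mul ((cut_mL γ).mul (cut_mK γ hbm ε)).ennreal_ofReal ?_
    refine Measurable.ite ?_ measurable_const
      ((mW.comp (cut_mz v)).mul (mG.comp (cut_mh v))).ennreal_ofReal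
    exact ((cut_mz v).prodMk (cut_mh v)) (measurableSet_RS v)
  -- the integrated inequality
  have main : Gn γ b ε G v + (Ls γ b ε F v + ENNReal.ofReal Λ * B) ≤
      Gn γ b ε F v + (Ls γ b ε G v + (ENNReal.ofReal Λ * XH + (ENNReal.ofReal Λ * XE +
        ENNReal.ofReal (Λ * (K₃ * (1 + Γ))) * Y))) := by
    rw [← t1, ← t2, ← t3, ← r1, ← r2, ← r3, ← r4, ← r5,
      ← cutI_add (cut_mB γ hbm ε mF v (F v)), ← cutI_add (cut_mA γ hbm ε mG v),
      ← cutI_add m4, ← cutI_add m3, ← cutI_add (cut_mB γ hbm ε mG v (G v)),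
      ← cutI_add (cut_mA γ hbm ε mF v)]
    refine cutI_mono fun m σ hσ hmσ => ?_
    have hk := cutKn_nonneg (γ := γ) hbd hε hσ hmσ
    have hc := co_pos hmσ
    have hc1 := co_le_one (m := m) hσ
    have hq0 : 0 ≤ co m σ ^ ((d : ℝ) + γ) := Real.rpow_nonneg hc.le _
    have hq1 : co m σ ^ ((d : ℝ) + γ) ≤ 1 := Real.rpow_le_one hc.le hc1 hE0
    have h3 := hP α Γ Λ F G v ht (v - m) (hh σ m) _ hq0 hq1
    have hlk : 0 ≤ len m ^ γ * Kn d γ (bt b ε) (co m σ) := mul_nonneg (hl m) hk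
    have h4 := mul_le_mul_of_nonneg_left h3 hlk
    have e4 : ENNReal.ofReal Λ * (ENNReal.ofReal (len m ^ γ * Kn d γ (bt b ε) (co m σ)) *
        (if (v - m, v + hh σ m) ∈ RS v then 0 else
          ENNReal.ofReal (Wp p (v - m) * G (v + hh σ m)))) =
        ENNReal.ofReal (len m ^ γ * Kn d γ (bt b ε) (co m σ) *
          (if (v - m, v + hh σ m) ∈ RS v then 0 else
            Λ * (Wp p (v - m) * G (v + hh σ m)))) := by
      by_cases hmem : (v - m, v + hh σ m) ∈ RS v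
      · rw [if_pos hmem, if_pos hmem, mul_zero, mul_zero, mul_zero, ENNReal.ofReal_zero]
      · rw [if_neg hmem, if_neg hmem, ← ENNReal.ofReal_mul hlk, ← ENNReal.ofReal_mul hΛ]
        congr 1
        ring
    rw [e4, ← ENNReal.ofReal_mul hΛ, ← ENNReal.ofReal_mul (by positivity)]
    refine cut_pt ?_ ?_ ?_ ?_
    · exact mul_nonneg (mul_nonneg (hl m) (G0 _)) (mul_nonneg hk (G0 _))
    · exact mul_nonneg (mul_nonneg (mul_nonneg (hl m) (F0 _)) (F0 _)) (mul_nonneg hk hq0)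
    · exact mul_nonneg (mul_nonneg (mul_nonneg (hl m) (hmn m)) (mul_nonneg hΛ Wv.le))
        (mul_nonneg hk hq0)
    · calc _ = len m ^ γ * Kn d γ (bt b ε) (co m σ) * (G (v - m) * G (v + hh σ m) +
            co m σ ^ ((d : ℝ) + γ) * (F (v - m) * F v) + min (F (v - m)) (G (v - m)) *
              (co m σ ^ ((d : ℝ) + γ) * (Λ * Wp p v))) := by ring
        _ ≤ _ := h4
        _ = _ := by ring
  have hI' : XH + XE ≤ B + ENNReal.ofReal (K₁ * Wp p v) :=
    (le_lintegral_add _ _).trans (hI F G ht.hF ht.hG v hmG hdF ε hε hε1)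
  have hR' : Y ≤ ENNReal.ofReal (K₂ * Wp p v) := hR v ε hε
  obtain ⟨gG, lG, eG⟩ := cut_eq HL.H ht.hG.nice G0 hε v
  obtain ⟨gF, lF, eF⟩ := cut_eq HL.H ht.hF.nice F0 hε v
  -- finiteness
  have hfin : ENNReal.ofReal Λ * B ≠ ⊤ := by
    rcases hΛ.eq_or_lt with h | h
    · rw [← h, ENNReal.ofReal_zero, zero_mul]
      exact ENNReal.zero_ne_top
    · have hGv : 0 < G v := by
        have h3 := ht.tou
        have h4 := F0 v
        have h5 := mul_pos h Wv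
        linarith
      have hBle : B ≤ ENNReal.ofReal (Wp p v / G v) * Ls γ b ε G v := by
        rw [loss_eq hd γ hbm hbd hε mG G0 v, ← lintegral_const_mul' _ _ ENNReal.ofReal_ne_top, hB]
        refine lintegral_mono fun m => ?_
        have e5 : ENNReal.ofReal (Wp p v) =
            ENNReal.ofReal (Wp p v / G v) * ENNReal.ofReal (G v) := by
          rw [← ENNReal.ofReal_mul (by positivity), div_mul_cancel₀ _ hGv.ne']
        have h6 : ENNReal.ofReal (len m ^ γ * min (F (v - m)) (G (v - m))) ≤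
            ENNReal.ofReal (len m ^ γ * G (v - m)) :=
          ENNReal.ofReal_le_ofReal (mul_le_mul_of_nonneg_left (min_le_right _ _) (hl m))
        calc ENNReal.ofReal (len m ^ γ * min (F (v - m)) (G (v - m))) *
              (ENNReal.ofReal (Wp p v) * BB b ε (dir m))
            ≤ ENNReal.ofReal (len m ^ γ * G (v - m)) *
              (ENNReal.ofReal (Wp p v) * BB b ε (dir m)) := mul_le_mul_left h6 _
          _ = _ := by rw [e5]; ring
      refine ENNReal.mul_ne_top ENNReal.ofReal_ne_top (ne_top_of_le_ne_top ?_ hBle)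
      exact ENNReal.mul_ne_top ENNReal.ofReal_ne_top lG
  have hS0 : 0 ≤ Λ * (K₁ * Wp p v) + Λ * (K₃ * (1 + Γ)) * (K₂ * Wp p v) := by
    have := Wv.le
    positivity
  have key : Gn γ b ε G v + Ls γ b ε F v ≤ Gn γ b ε F v + Ls γ b ε G v +
      ENNReal.ofReal (Λ * (K₁ * Wp p v) + Λ * (K₃ * (1 + Γ)) * (K₂ * Wp p v)) := by
    rw [← ENNReal.add_le_add_iff_right hfin]
    calc Gn γ b ε G v + Ls γ b ε F v + ENNReal.ofReal Λ * B
        = Gn γ b ε G v + (Ls γ b ε F v + ENNReal.ofReal Λ * B) := add_assoc _ _ _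
      _ ≤ Gn γ b ε F v + (Ls γ b ε G v + (ENNReal.ofReal Λ * XH + (ENNReal.ofReal Λ * XE +
          ENNReal.ofReal (Λ * (K₃ * (1 + Γ))) * Y))) := main
      _ = Gn γ b ε F v + Ls γ b ε G v + (ENNReal.ofReal Λ * (XH + XE) +
          ENNReal.ofReal (Λ * (K₃ * (1 + Γ))) * Y) := by ring
      _ ≤ Gn γ b ε F v + Ls γ b ε G v + (ENNReal.ofReal Λ * (B + ENNReal.ofReal (K₁ * Wp p v)) +
          ENNReal.ofReal (Λ * (K₃ * (1 + Γ))) * ENNReal.ofReal (K₂ * Wp p v)) := by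
          gcongr
      _ = Gn γ b ε F v + Ls γ b ε G v + (ENNReal.ofReal Λ * ENNReal.ofReal (K₁ * Wp p v) +
          ENNReal.ofReal (Λ * (K₃ * (1 + Γ))) * ENNReal.ofReal (K₂ * Wp p v)) +
          ENNReal.ofReal Λ * B := by ring
      _ = _ := by
          rw [← ENNReal.ofReal_mul hΛ, ← ENNReal.ofReal_mul (by positivity),
            ← ENNReal.ofReal_add (by positivity) (by positivity)]
  have key2 := ENNReal.toReal_mono (ENNReal.add_ne_top.2 ⟨ENNReal.add_ne_top.2 ⟨gF, lG⟩,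
    ENNReal.ofReal_ne_top⟩) key
  rw [ENNReal.toReal_add gG lF, ENNReal.toReal_add (ENNReal.add_ne_top.2 ⟨gF, lG⟩)
    ENNReal.ofReal_ne_top, ENNReal.toReal_add gF lG, ENNReal.toReal_ofReal hS0] at key2
  rw [eG, eF]
  have h7 : Λ * (K₁ * Wp p v) + Λ * (K₃ * (1 + Γ)) * (K₂ * Wp p v) ≤
      (K₁ + K₂ * K₃) * (1 + Γ) * (Λ * Wp p v) := by
    have h8 : 0 ≤ K₁ * Γ * (Λ * Wp p v) := by
      have := Wv.le
      positivity
    nlinarith
  linarith

theorem op_PI (HL : HypL d γ s b C Ca cb) (h0 : 0 ≤ γ + 2 * s) (hs : 2 * s < 1) {α : ℝ} (h1 : 2 * s < α)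
    (h2 : α ≤ 1) {p : ℕ} (hp : d + 10 ≤ p) (Cl : ℕ → ℝ) (R₁ : ℝ) {m₁ : ℝ} (hm : 0 < m₁) :
    ∃ ε₁ > 0, ∃ K : ℝ, 0 ≤ K ∧ ∀ (Γ Λ : ℝ) (F G : Vec d → ℝ) (v : Vec d), TP Cl p α Γ Λ F G v →
      m₁ ≤ ∫ z in {z : Vec d | nsq z ≤ R₁ ^ 2}, G z → ∫ z, |G z - F z| ≤ ε₁ →
      boltzQ γ b G v - boltzQ γ b F v ≤ K * (1 + Γ) * (Λ * Wp p v) := by
  obtain ⟨ε₁, hε₁, K, hK, h⟩ := cut_PI HL h0 hs h1 h2 hp Cl R₁ hm
  refine ⟨ε₁, hε₁, K, hK, fun Γ Λ F G v ht hmG hdF => ?_⟩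
  refine le_of_tendsto ((boltz_tendsto HL.H ht.hG.nice v).sub (boltz_tendsto HL.H ht.hF.nice v)) ?_
  filter_upwards [Ioo_mem_nhdsGT (show (0 : ℝ) < 1 / 64 by norm_num)] with ε hε
  exact h Γ Λ F G v ht hmG hdF ε hε.1 hε.2.le

end Pool.Agent.H87.SV
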